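import Mathlib

open Matrix Topology

namespace Pool.Agent.H.MP_e90164_al

def En (X : Type) [TopologicalSpace X] : Type := C(X, X)

section
variable {X : Type} [TopologicalSpace X]

instance : TopologicalSpace (En X) := inferInstanceAs (TopologicalSpace C(X, X))

def En.m (f : En X) : C(X, X) := f

instance : Monoid (En X) where
  one := ContinuousMap.id X
  mul f g := ContinuousMap.comp f.m g.m
  mul_assoc _ _ _ := rfl
  one_mul _ := rfl
  mul_one _ := rfl

instance [LocallyCompactSpace X] : ContinuousMul (En X) where
  continuous_mul := by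
    have h : Continuous fun x : C(X, X) × C(X, X) => x.2.comp x.1 := ContinuousMap.continuous_comp'
    exact h.comp continuous_swap

instance [T2Space X] : T2Space (En X) := inferInstanceAs (T2Space C(X, X))

def ev (g : (En X)ˣ) (x : X) : X := (g : En X).m x

lemma ev_cont (x : X) : Continuous fun g : (En X)ˣ => ev g x := by
  have h : Continuous fun f : C(X, X) => f x := continuous_eval_const x
  have h2 : Continuous fun g : (En X)ˣ => (g : En X) := Units.continuous_val
  exact h.comp h2

lemma ev_ext {g h : (En X)ˣ} (H : ∀ x, ev g x = ev h x) : g = h := by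
  apply Units.ext
  exact ContinuousMap.ext H

lemma mk_act (P : Type) [Group P] [TopologicalSpace P] [ContinuousInv P] (act : P → X → X)
    (hc : Continuous fun z : P × X => act z.1 z.2) (h1 : ∀ x, act 1 x = x)
    (hm : ∀ p q x, act (p * q) x = act p (act q x)) :
    ∃ a : P →* (En X)ˣ, Continuous a ∧ ∀ p x, ev (a p) x = act p x := by
  let f : P → C(X, X) := fun p => ⟨act p, hc.comp (Continuous.prodMk_right p)⟩
  have hf : Continuous f := ContinuousMap.continuous_of_continuous_uncurry f hc
  let f' : P →* En X :=
    { toFun := f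
      map_one' := ContinuousMap.ext h1
      map_mul' := fun p q => ContinuousMap.ext (hm p q) }
  refine ⟨f'.toHomUnits, ?_, fun p x => rfl⟩
  rw [Units.continuous_iff]
  refine ⟨hf, ?_⟩
  have : (fun p => ((f'.toHomUnits p)⁻¹ : (En X)ˣ).val) = fun p => f' p⁻¹ := by
    funext p
    rw [← map_inv]
    rfl
  rw [this]
  exact hf.comp continuous_inv

end

noncomputable def rangeEquiv {P G : Type} [Group P] [Group G] [TopologicalSpace P]
    [TopologicalSpace G] (a : P →* G) (ha : IsEmbedding a) : P ≃ₜ* a.range :=
  { MonoidHom.ofInjective ha.injective with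
    continuous_toFun := by
      refine continuous_induced_rng.2 ?_
      exact ha.continuous
    continuous_invFun := by
      rw [ha.isInducing.continuous_iff]
      have : (a ∘ (MonoidHom.ofInjective ha.injective).invFun) = Subtype.val := by
        funext x
        exact MonoidHom.apply_ofInjective_symm ha.injective x
      rw [this]
      exact continuous_subtype_val }

lemma rangeEquiv_symm {P G : Type} [Group P] [Group G] [TopologicalSpace P]
    [TopologicalSpace G] (a : P →* G) (ha : IsEmbedding a) (x : a.range) :
    a ((rangeEquiv a ha).symm x) = x :=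
  MonoidHom.apply_ofInjective_symm ha.injective x

lemma linear_of_cocycle {H : Type} [Group H] [TopologicalSpace H] [IsTopologicalGroup H]
    {d : ℕ} (r : H →* Matrix (Fin d) (Fin d) ℝ) (hr : Continuous r) (c : H → Fin d → ℝ)
    (hc1 : c 1 = 0) (hc : ∀ g h, c (g * h) = c g + r g *ᵥ c h)
    (π : H →* Matrix.SpecialLinearGroup (Fin 2) ℝ)
    (hcl : IsClosedEmbedding fun g => (c g, π g)) :
    ∃ (n : ℕ) (φ : H →* GL (Fin n) ℝ), IsClosedEmbedding φ := by
  have hcc : Continuous c := continuous_fst.comp hcl.continuous
  have hπ : Continuous π := continuous_snd.comp hcl.continuous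
  let I := (Fin d ⊕ Unit) ⊕ Fin 2
  let e : I ≃ Fin (Fintype.card I) := Fintype.equivFin I
  let m : H →* Matrix I I ℝ :=
    { toFun := fun g => fromBlocks (fromBlocks (r g) (replicateCol Unit (c g)) 0 1) 0 0
        (π g : Matrix (Fin 2) (Fin 2) ℝ)
      map_one' := by
        simp only [map_one, hc1, Matrix.SpecialLinearGroup.coe_one]
        rw [show replicateCol Unit (0 : Fin d → ℝ) = 0 from rfl, fromBlocks_one, fromBlocks_one]
      map_mul' := by
        intro g h
        have key := fromBlocks_multiply
          (fromBlocks (r g) (replicateCol Unit (c g)) 0 (1 : Matrix Unit Unit ℝ))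
          (0 : Matrix (Fin d ⊕ Unit) (Fin 2) ℝ) (0 : Matrix (Fin 2) (Fin d ⊕ Unit) ℝ)
          (π g : Matrix (Fin 2) (Fin 2) ℝ)
          (fromBlocks (r h) (replicateCol Unit (c h)) 0 (1 : Matrix Unit Unit ℝ))
          (0 : Matrix (Fin d ⊕ Unit) (Fin 2) ℝ) (0 : Matrix (Fin 2) (Fin d ⊕ Unit) ℝ)
          (π h : Matrix (Fin 2) (Fin 2) ℝ)
        refine Eq.trans ?_ key.symm
        simp only [fromBlocks_multiply, map_mul, Matrix.SpecialLinearGroup.coe_mul, hc,
          Matrix.mul_zero, Matrix.zero_mul, add_zero, zero_add, Matrix.mul_one]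
        congr 2
        rw [replicateCol_add, replicateCol_mulVec, add_comm] }
  have hm : Continuous m := by
    have h2 : Continuous fun g => (π g : Matrix (Fin 2) (Fin 2) ℝ) :=
      continuous_subtype_val.comp hπ
    refine Continuous.matrix_fromBlocks (Continuous.matrix_fromBlocks hr ?_ continuous_const
      continuous_const) continuous_const continuous_const h2
    exact hcc.matrix_replicateCol
  let m' : H →* Matrix (Fin (Fintype.card I)) (Fin (Fintype.card I)) ℝ :=
    (Matrix.reindexAlgEquiv ℝ ℝ e).toMulEquiv.toMonoidHom.comp m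
  have hm'e : ∀ g i j, m' g i j = m g (e.symm i) (e.symm j) := fun g i j => rfl
  have hm' : Continuous m' := by
    refine continuous_matrix fun i j => ?_
    simp only [hm'e]
    exact hm.matrix_elem _ _
  refine ⟨Fintype.card I, m'.toHomUnits, ?_⟩
  have hφ : Continuous m'.toHomUnits := by
    rw [Units.continuous_iff]
    refine ⟨hm', ?_⟩
    have : (fun p => ((m'.toHomUnits p)⁻¹ : GL (Fin (Fintype.card I)) ℝ).val) =
        fun p => m' p⁻¹ := by
      funext p
      rw [← map_inv]
      rfl
    rw [this]
    exact hm'.comp continuous_inv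
  let ψ : GL (Fin (Fintype.card I)) ℝ → (Fin d → ℝ) × Matrix (Fin 2) (Fin 2) ℝ := fun A =>
    (fun i => A.val (e (Sum.inl (Sum.inl i))) (e (Sum.inl (Sum.inr ()))),
      Matrix.of fun i j => A.val (e (Sum.inr i)) (e (Sum.inr j)))
  have hψ : Continuous ψ := by
    refine Continuous.prodMk (continuous_pi fun i => ?_) (continuous_matrix fun i j => ?_)
    · exact Units.continuous_val.matrix_elem _ _
    · exact Units.continuous_val.matrix_elem _ _
  have hcomp : ψ ∘ m'.toHomUnits = (Prod.map id
      ((↑) : Matrix.SpecialLinearGroup (Fin 2) ℝ → Matrix (Fin 2) (Fin 2) ℝ)) ∘ fun g => (c g, π g) := by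
    funext g
    refine Prod.ext ?_ ?_
    · funext i
      show m' g _ _ = c g i
      rw [hm'e, e.symm_apply_apply, e.symm_apply_apply]
      rfl
    · funext i j
      show m' g _ _ = (π g : Matrix (Fin 2) (Fin 2) ℝ) i j
      rw [hm'e, e.symm_apply_apply, e.symm_apply_apply]
      rfl
  have hce : IsClosedEmbedding (ψ ∘ m'.toHomUnits) := by
    rw [hcomp]
    refine IsClosedEmbedding.comp ?_ hcl
    exact IsClosedEmbedding.id.prodMap Matrix.SpecialLinearGroup.isClosedEmbedding_val
  have hp : IsProperMap m'.toHomUnits := isProperMap_of_comp_of_t2 hφ hψ hce.isProperMap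
  exact IsClosedEmbedding.of_continuous_injective_isClosedMap hφ hce.injective.of_comp
    hp.isClosedMap

end Pool.Agent.H.MP_e90164_al
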