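import Pool.Agent.H.MP_e90164_al.En

open Matrix Topology

namespace Pool.Agent.H.MP_e90164_al

abbrev S2 : Type := Matrix.SpecialLinearGroup (Fin 2) ℝ

def u (t : ℝ) : S2 := ⟨!![1, t; 0, 1], by simp⟩

lemma u_add (s t : ℝ) : u (s + t) = u s * u t := by
  apply Subtype.ext
  rw [Matrix.SpecialLinearGroup.coe_mul]
  simp [u, add_comm]

lemma u_zero : u 0 = 1 := by
  apply Subtype.ext
  rw [Matrix.SpecialLinearGroup.coe_one]
  ext i j
  fin_cases i <;> fin_cases j <;> simp [u]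

lemma u_cont : Continuous u := by
  refine continuous_induced_rng.2 ?_
  refine continuous_matrix fun i j => ?_
  fin_cases i <;> fin_cases j <;> simp [u] <;> fun_prop

noncomputable def tau (g : S2) : ℝ :=
  (g.1 0 0 * g.1 1 0 + g.1 0 1 * g.1 1 1) / (g.1 1 0 ^ 2 + g.1 1 1 ^ 2)

lemma den_ne (g : S2) : g.1 1 0 ^ 2 + g.1 1 1 ^ 2 ≠ 0 := by
  intro h
  have h1 : g.1 1 0 = 0 := by nlinarith [sq_nonneg (g.1 1 0), sq_nonneg (g.1 1 1)]
  have h2 : g.1 1 1 = 0 := by nlinarith [sq_nonneg (g.1 1 0), sq_nonneg (g.1 1 1)]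
  have := g.2
  rw [Matrix.det_fin_two, h1, h2] at this
  simp at this

lemma tau_u (t : ℝ) (g : S2) : tau (u t * g) = t + tau g := by
  have h := den_ne g
  unfold tau
  have e : (u t * g).1 = (u t).1 * g.1 := rfl
  rw [e]
  simp only [u, Matrix.mul_apply, Fin.sum_univ_two, of_apply, cons_val', cons_val_zero,
    cons_val_one, cons_val_fin_one]
  simp only [zero_mul, one_mul, zero_add]
  field_simp
  ring

lemma tau_cont : Continuous tau := by
  have h : ∀ i j, Continuous fun g : S2 => g.1 i j := fun i j =>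
    continuous_subtype_val.matrix_elem i j
  unfold tau
  refine Continuous.div ?_ ?_ den_ne
  · exact ((h 0 0).mul (h 1 0)).add ((h 0 1).mul (h 1 1))
  · exact ((h 1 0).pow 2).add ((h 1 1).pow 2)

instance : LocallyCompactSpace S2 :=
  haveI : LocallyCompactSpace (Matrix (Fin 2) (Fin 2) ℝ) :=
    inferInstanceAs (LocallyCompactSpace (Fin 2 → Fin 2 → ℝ))
  Matrix.SpecialLinearGroup.isClosedEmbedding_val.locallyCompactSpace

instance : T2Space S2 :=
  Matrix.SpecialLinearGroup.isClosedEmbedding_val.isEmbedding.t2Space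

def P1 {d : ℕ} (_ρ : S2 →* Matrix (Fin d) (Fin d) ℝ) : Type := (Fin d → ℝ) × S2

section
variable {d : ℕ} (ρ : S2 →* Matrix (Fin d) (Fin d) ℝ)

instance : TopologicalSpace (P1 ρ) := inferInstanceAs (TopologicalSpace ((Fin d → ℝ) × S2))

def P1.mk (v : Fin d → ℝ) (h : S2) : P1 ρ := (v, h)
variable {ρ}
def P1.v (p : P1 ρ) : Fin d → ℝ := Prod.fst p
def P1.h (p : P1 ρ) : S2 := Prod.snd p

lemma P1.ext {p q : P1 ρ} (h1 : p.v = q.v) (h2 : p.h = q.h) : p = q := Prod.ext h1 h2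

noncomputable instance : Mul (P1 ρ) := ⟨fun p q => P1.mk ρ (p.v + ρ p.h *ᵥ q.v) (p.h * q.h)⟩
noncomputable instance : One (P1 ρ) := ⟨P1.mk ρ 0 1⟩
noncomputable instance : Inv (P1 ρ) := ⟨fun p => P1.mk ρ (-(ρ p.h⁻¹ *ᵥ p.v)) p.h⁻¹⟩

@[simp] lemma P1.mul_v (p q : P1 ρ) : (p * q).v = p.v + ρ p.h *ᵥ q.v := rfl
@[simp] lemma P1.mul_h (p q : P1 ρ) : (p * q).h = p.h * q.h := rfl
@[simp] lemma P1.one_v : (1 : P1 ρ).v = 0 := rfl
@[simp] lemma P1.one_h : (1 : P1 ρ).h = 1 := rfl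
@[simp] lemma P1.inv_v (p : P1 ρ) : (p⁻¹).v = -(ρ p.h⁻¹ *ᵥ p.v) := rfl
@[simp] lemma P1.inv_h (p : P1 ρ) : (p⁻¹).h = p.h⁻¹ := rfl
@[simp] lemma P1.mk_v (v : Fin d → ℝ) (h : S2) : (P1.mk ρ v h).v = v := rfl
@[simp] lemma P1.mk_h (v : Fin d → ℝ) (h : S2) : (P1.mk ρ v h).h = h := rfl

noncomputable instance : Group (P1 ρ) := Group.ofLeftAxioms
  (fun a b c => P1.ext (by simp [mulVec_add, mulVec_mulVec, add_assoc]) (by simp [mul_assoc]))
  (fun a => P1.ext (by simp) (by simp))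
  (fun a => P1.ext (by simp) (by simp))

lemma P1.v_cont : Continuous (P1.v : P1 ρ → _) := continuous_fst
lemma P1.h_cont : Continuous (P1.h : P1 ρ → _) := continuous_snd
lemma P1.cont_mk {Z : Type} [TopologicalSpace Z] {f : Z → Fin d → ℝ} {g : Z → S2}
    (hf : Continuous f) (hg : Continuous g) : Continuous fun z => P1.mk ρ (f z) (g z) :=
  hf.prodMk hg

lemma P1.topGroup (hρ : Continuous ρ) : IsTopologicalGroup (P1 ρ) where
  continuous_mul := by
    refine P1.cont_mk (f := fun z : P1 ρ × P1 ρ => z.1.v + ρ z.1.h *ᵥ z.2.v)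
      (g := fun z : P1 ρ × P1 ρ => z.1.h * z.2.h) ?_ ?_
    · exact (P1.v_cont.comp continuous_fst).add
        ((hρ.comp (P1.h_cont.comp continuous_fst)).matrix_mulVec (P1.v_cont.comp continuous_snd))
    · exact (P1.h_cont.comp continuous_fst).mul (P1.h_cont.comp continuous_snd)
  continuous_inv := by
    refine P1.cont_mk (f := fun p : P1 ρ => -(ρ p.h⁻¹ *ᵥ p.v)) (g := fun p : P1 ρ => p.h⁻¹) ?_ ?_
    · exact ((hρ.comp P1.h_cont.inv).matrix_mulVec P1.v_cont).neg
    · exact P1.h_cont.inv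

instance : T2Space (P1 ρ) := inferInstanceAs (T2Space ((Fin d → ℝ) × S2))

end

abbrev XX (d : ℕ) : Type := (Fin d → ℝ) × S2 × S2
abbrev P2 (d' : ℕ) : Type := Multiplicative (Fin d' → ℝ) × S2

theorem main {d d' : ℕ} (ρ : S2 →* Matrix (Fin d) (Fin d) ℝ) (hρ : Continuous ρ)
    (lam : (Fin d → ℝ) →L[ℝ] ℝ) (e : Fin d → ℝ)
    (ι : (Fin d' → ℝ) →L[ℝ] (Fin d → ℝ)) (pr : (Fin d → ℝ) →L[ℝ] (Fin d' → ℝ))
    (hpi : ∀ w, pr (ι w) = w) (hli : ∀ w, lam (ι w) = 0) (hpe : pr e = 0)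
    (hip : ∀ v, ι (pr v) = v - lam v • e)
    (hcyc : ∀ v, (∀ h, lam (ρ h *ᵥ v) = 0) → v = 0) :
    ∃ (G : Type) (_ : Group G) (_ : TopologicalSpace G) (_ : IsTopologicalGroup G) (_ : T2Space G)
      (G1 G2 B1 B2 : Subgroup G),
      IsClosed (G1 : Set G) ∧ IsClosed (G2 : Set G) ∧
      (∃ (n : ℕ) (φ : G1 →* GL (Fin n) ℝ), IsClosedEmbedding φ) ∧
      (∃ (n : ℕ) (φ : G2 →* GL (Fin n) ℝ), IsClosedEmbedding φ) ∧
      (∃ π : G1 →* S2, IsOpenQuotientMap π ∧ π.ker = B1.subgroupOf G1) ∧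
      (∃ π : G2 →* S2, IsOpenQuotientMap π ∧ π.ker = B2.subgroupOf G2) ∧
      Nonempty (Multiplicative (Fin d → ℝ) ≃ₜ* B1) ∧
      Nonempty (Multiplicative (Fin d' → ℝ) ≃ₜ* B2) ∧
      B2 ≤ B1 ∧ B1 ≤ G1 ∧ B1 ≤ G2 ∧
      (∀ H : Subgroup G, H ≤ B2 → (∀ g ∈ G1, ∀ x ∈ H, g * x * g⁻¹ ∈ H) → H = ⊥) := by
  have := P1.topGroup hρ
  let act1 : P1 ρ → (XX d) → (XX d) := fun p x =>
    (p.v + ρ p.h *ᵥ x.1, p.h * x.2.1, u (lam (p.v + ρ p.h *ᵥ x.1) - lam x.1) * x.2.2)
  let act2 : (P2 d') → (XX d) → (XX d) := fun p x =>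
    (x.1 + ι p.1.toAdd + (tau (p.2 * x.2.2) - tau x.2.2) • e, x.2.1, p.2 * x.2.2)
  obtain ⟨a1, ha1c, ha1⟩ := mk_act (P1 ρ) act1 (by
      have h1 : Continuous fun z : P1 ρ × (XX d) => z.1.v + ρ z.1.h *ᵥ z.2.1 :=
        (P1.v_cont.comp continuous_fst).add
          ((hρ.comp (P1.h_cont.comp continuous_fst)).matrix_mulVec
            (continuous_fst.comp continuous_snd))
      refine h1.prodMk (Continuous.prodMk ?_ ?_)
      · exact (P1.h_cont.comp continuous_fst).mul (by fun_prop)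
      · refine Continuous.mul (u_cont.comp ?_) (by fun_prop)
        exact (lam.continuous.comp h1).sub (lam.continuous.comp (by fun_prop)))
    (by
      intro x
      simp [act1, u_zero])
    (by
      intro p q x
      simp only [act1, P1.mul_v, P1.mul_h, map_mul, mulVec_add, mulVec_mulVec, add_assoc,
        mul_assoc]
      congr 2
      rw [← mul_assoc, ← u_add]
      congr 2
      ring)
  obtain ⟨a2, ha2c, ha2⟩ := mk_act (P2 d') act2 (by
      have h1 : Continuous fun z : (P2 d') × (XX d) => z.1.2 * z.2.2.2 := by fun_prop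
      refine Continuous.prodMk ?_ (Continuous.prodMk (by fun_prop) h1)
      refine Continuous.add (Continuous.add (by fun_prop) (ι.continuous.comp ?_)) ?_
      · exact continuous_toAdd.comp (by fun_prop)
      · exact ((tau_cont.comp h1).sub (tau_cont.comp (by fun_prop))).smul continuous_const)
    (by
      intro x
      simp [act2])
    (by
      intro p q x
      simp only [act2, Prod.fst_mul, Prod.snd_mul, toAdd_mul, map_add, mul_assoc]
      congr 1
      module)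
  let x0 : (XX d) := (0, 1, 1)
  have hce1 : IsClosedEmbedding a1 := by
    refine Function.LeftInverse.isClosedEmbedding
      (f := fun g => P1.mk ρ (ev g x0).1 (ev g x0).2.1) ?_ ?_ ha1c
    · intro p
      refine P1.ext ?_ ?_ <;> simp [ha1, act1, x0]
    · exact P1.cont_mk (continuous_fst.comp (ev_cont x0))
        (continuous_fst.comp (continuous_snd.comp (ev_cont x0)))
  have hce2 : IsClosedEmbedding a2 := by
    refine Function.LeftInverse.isClosedEmbedding
      (f := fun g => (Multiplicative.ofAdd (pr (ev g x0).1), (ev g x0).2.2)) ?_ ?_ ha2c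
    · intro p
      refine Prod.ext ?_ ?_ <;> simp [ha2, act2, x0, hpi, hpe]
    · refine Continuous.prodMk (continuous_ofAdd.comp (pr.continuous.comp ?_)) ?_
      · exact continuous_fst.comp (ev_cont x0)
      · exact continuous_snd.comp (continuous_snd.comp (ev_cont x0))
  let i1 : Multiplicative (Fin d → ℝ) →* P1 ρ :=
    { toFun := fun v => P1.mk ρ v.toAdd 1
      map_one' := rfl
      map_mul' := fun v w => P1.ext (by simp) (by simp) }
  have hi1 : IsEmbedding i1 := by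
    refine IsEmbedding.of_leftInverse (f := fun p : P1 ρ => Multiplicative.ofAdd p.v)
      (fun v => rfl) (continuous_ofAdd.comp P1.v_cont) ?_
    exact P1.cont_mk continuous_toAdd continuous_const
  let i2 : Multiplicative (Fin d' → ℝ) →* (P2 d') := MonoidHom.inl _ _
  have hi2 : IsEmbedding i2 := by
    refine IsEmbedding.of_leftInverse (f := fun p : (P2 d') => p.1) (fun v => rfl) continuous_fst ?_
    exact Continuous.prodMk continuous_id continuous_const
  have hglue : ∀ v : Fin d → ℝ, a1 (P1.mk ρ v 1) = a2 (Multiplicative.ofAdd (pr v), u (lam v)) := by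
    intro v
    refine ev_ext fun x => ?_
    rw [ha1, ha2]
    simp only [act1, act2, P1.mk_v, P1.mk_h, map_one, one_mulVec, one_mul, toAdd_ofAdd, tau_u,
      hip, map_add, add_sub_cancel_right]
    congr 1
    module
  have hglue2 : ∀ w : Fin d' → ℝ, a2 (Multiplicative.ofAdd w, 1) = a1 (P1.mk ρ (ι w) 1) := by
    intro w
    rw [hglue, hpi, hli, u_zero]
  let k1 := rangeEquiv a1 hce1.isEmbedding
  let k2 := rangeEquiv a2 hce2.isEmbedding
  let s1 : P1 ρ →* S2 := { toFun := P1.h, map_one' := rfl, map_mul' := fun _ _ => rfl }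
  let π1 : a1.range →* S2 := s1.comp k1.symm.toMulEquiv.toMonoidHom
  let π2 : a2.range →* S2 := (MonoidHom.snd _ _).comp k2.symm.toMulEquiv.toMonoidHom
  refine ⟨(En (XX d))ˣ, inferInstance, inferInstance, inferInstance, inferInstance, a1.range, a2.range,
    (a1.comp i1).range, (a2.comp i2).range, ?_, ?_, ?_, ?_, ⟨π1, ?_, ?_⟩, ⟨π2, ?_, ?_⟩,
    ⟨rangeEquiv _ (hce1.isEmbedding.comp hi1)⟩, ⟨rangeEquiv _ (hce2.isEmbedding.comp hi2)⟩,
    ?_, ?_, ?_, ?_⟩
  · exact hce1.isClosed_range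
  · exact hce2.isClosed_range
  · refine linear_of_cocycle (ρ.comp π1) (hρ.comp (P1.h_cont.comp k1.symm.continuous))
      (fun g => (k1.symm g).v) (by simp) (fun g h => ?_) π1 ?_
    · rw [map_mul]
      rfl
    · exact k1.symm.toHomeomorph.isClosedEmbedding
  · refine linear_of_cocycle (d := d') 1 continuous_const
      (fun g => (k2.symm g).1.toAdd) (by simp) (fun g h => ?_) π2 ?_
    · rw [map_mul]
      simp
    · exact k2.symm.toHomeomorph.isClosedEmbedding
  · have h : IsOpenQuotientMap (P1.h : P1 ρ → S2) := isOpenQuotientMap_snd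
    exact h.comp k1.symm.toHomeomorph.isOpenQuotientMap
  · ext g
    rw [MonoidHom.mem_ker, Subgroup.mem_subgroupOf]
    have hg := rangeEquiv_symm a1 hce1.isEmbedding g
    constructor
    · intro h
      refine ⟨Multiplicative.ofAdd (k1.symm g).v, ?_⟩
      rw [← hg]
      exact congrArg a1 (P1.ext rfl h.symm)
    · rintro ⟨v, hv⟩
      rw [← hg] at hv
      exact (congrArg P1.h (hce1.injective hv)).symm
  · have h : IsOpenQuotientMap (Prod.snd : (P2 d') → S2) := isOpenQuotientMap_snd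
    exact h.comp k2.symm.toHomeomorph.isOpenQuotientMap
  · ext g
    rw [MonoidHom.mem_ker, Subgroup.mem_subgroupOf]
    have hg := rangeEquiv_symm a2 hce2.isEmbedding g
    constructor
    · intro h
      refine ⟨(k2.symm g).1, ?_⟩
      rw [← hg]
      exact congrArg a2 (Prod.ext rfl h.symm)
    · rintro ⟨v, hv⟩
      rw [← hg] at hv
      exact (congrArg Prod.snd (hce2.injective hv)).symm
  · rintro _ ⟨w, rfl⟩
    exact ⟨Multiplicative.ofAdd (ι w.toAdd), (hglue2 w.toAdd).symm⟩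
  · rintro _ ⟨v, rfl⟩
    exact ⟨_, rfl⟩
  · rintro _ ⟨v, rfl⟩
    exact ⟨_, (hglue v.toAdd).symm⟩
  · intro H hH hn
    rw [eq_bot_iff]
    intro x hx
    obtain ⟨w, rfl⟩ := hH hx
    have hw : (a2.comp i2) w = a1 (P1.mk ρ (ι w.toAdd) 1) := hglue2 w.toAdd
    have h0 : ι w.toAdd = 0 := by
      refine hcyc _ fun h => ?_
      obtain ⟨w', hw'⟩ := hH (hn (a1 (P1.mk ρ 0 h)) ⟨_, rfl⟩ _ hx)
      have hw2 : (a2.comp i2) w' = a1 (P1.mk ρ (ι w'.toAdd) 1) := hglue2 w'.toAdd
      rw [hw, hw2, ← map_inv, ← map_mul, ← map_mul] at hw'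
      have h3 := congrArg P1.v (hce1.injective hw')
      simp at h3
      rw [← h3, hli]
    rw [hw, h0]
    exact (map_one a1 : a1 1 = 1)

end Pool.Agent.H.MP_e90164_al
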