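import Pool.Agent.H.MP_e90164_al.Main

open Matrix Topology

namespace Pool.Agent.H.MP_e90164_al

def mono {k : ℕ} (j : Fin k → Fin 2) : S2 → ℝ := fun g => ∏ a, g.1 0 (j a)

def V (k : ℕ) : Submodule ℝ (S2 → ℝ) := Submodule.span ℝ (Set.range (mono (k := k)))

instance (k : ℕ) : FiniteDimensional ℝ (V k) :=
  FiniteDimensional.span_of_finite ℝ (Set.finite_range _)

lemma V_cont {k : ℕ} {f : S2 → ℝ} (hf : f ∈ V k) : Continuous f := by
  induction hf using Submodule.span_induction with
  | mem f hf =>
    obtain ⟨j, rfl⟩ := hf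
    exact continuous_finset_prod _ fun a _ => continuous_subtype_val.matrix_elem _ _
  | zero => exact continuous_const
  | add f g _ _ hf hg => exact hf.add hg
  | smul c f _ hf => exact hf.const_smul c

lemma V_shift {k : ℕ} (h : S2) {f : S2 → ℝ} (hf : f ∈ V k) : (fun g => f (g * h)) ∈ V k := by
  induction hf using Submodule.span_induction with
  | mem f hf =>
    obtain ⟨j, rfl⟩ := hf
    have : (fun g => mono j (g * h)) =
        ∑ l : Fin k → Fin 2, (∏ a, h.1 (l a) (j a)) • mono l := by
      funext g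
      have e : (g * h).1 = g.1 * h.1 := rfl
      simp only [mono, e, Matrix.mul_apply, Finset.sum_apply, Pi.smul_apply, smul_eq_mul]
      rw [Finset.prod_univ_sum]
      simp only [Fintype.piFinset_univ]
      refine Finset.sum_congr rfl fun l _ => ?_
      rw [Finset.prod_mul_distrib, mul_comm]
    rw [this]
    exact Submodule.sum_mem _ fun l _ => Submodule.smul_mem _ _ (Submodule.subset_span ⟨l, rfl⟩)
  | zero => exact Submodule.zero_mem _
  | add f g _ _ hf hg => exact Submodule.add_mem _ hf hg
  | smul c f _ hf => exact Submodule.smul_mem _ c hf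

def T (k : ℕ) : S2 →* (V k →ₗ[ℝ] V k) where
  toFun h :=
    { toFun := fun f => ⟨fun g => f.1 (g * h), V_shift h f.2⟩
      map_add' := fun _ _ => rfl
      map_smul' := fun _ _ => rfl }
  map_one' := by
    ext f g
    simp
  map_mul' h1 h2 := by
    ext f g
    simp [mul_assoc]

lemma T_apply {k : ℕ} (h : S2) (f : V k) (g : S2) : (T k h f).1 g = f.1 (g * h) := rfl

lemma T_cont {k : ℕ} (f : V k) : Continuous fun h => T k h f := by
  refine continuous_induced_rng.2 (continuous_pi fun g => ?_)
  exact (V_cont f.2).comp (continuous_const.mul continuous_id)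

def jj (k : ℕ) (i : ℕ) : Fin k → Fin 2 := fun a => if a.val < i then 1 else 0

lemma mono_u {k i : ℕ} (hi : i ≤ k) (t : ℝ) : mono (jj k i) (u t) = t ^ i := by
  have h : ∀ a : Fin k, (u t).1 0 (jj k i a) = if a.val < i then t else 1 := by
    intro a
    unfold jj
    split_ifs <;> simp [u]
  simp only [mono, h]
  rw [Finset.prod_ite, Finset.prod_const_one, mul_one, Finset.prod_const]
  congr 1
  rw [Fin.card_filter_val_lt]
  omega

lemma finrank_V (k : ℕ) : k + 1 ≤ Module.finrank ℝ (V k) := by
  let m : Fin (k + 1) → V k := fun i => ⟨mono (jj k i), Submodule.subset_span ⟨_, rfl⟩⟩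
  have hli : LinearIndependent ℝ m := by
    rw [Fintype.linearIndependent_iff]
    intro c hc
    have h1 : ∀ t : ℝ, ∑ i : Fin (k + 1), c i * t ^ (i : ℕ) = 0 := by
      intro t
      have := congrArg (fun f : V k => f.1 (u t)) hc
      simp only [Submodule.coe_sum, Finset.sum_apply, Submodule.coe_smul, Pi.smul_apply,
        smul_eq_mul, m, Submodule.coe_zero, Pi.zero_apply] at this
      rw [← this]
      refine Finset.sum_congr rfl fun i _ => ?_
      rw [mono_u (by omega)]
    have h2 : (∑ i : Fin (k + 1), Polynomial.monomial (i : ℕ) (c i)) = 0 := by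
      apply Polynomial.funext
      intro t
      simp only [Polynomial.eval_finset_sum, Polynomial.eval_monomial, Polynomial.eval_zero]
      exact h1 t
    intro i
    have h3 := congrArg (fun p => Polynomial.coeff p i) h2
    simp only [Polynomial.finset_sum_coeff, Polynomial.coeff_monomial, Polynomial.coeff_zero,
      Fin.val_inj] at h3
    simpa using h3
  simpa using hli.fintype_card_le_finrank

theorem exists_rep (k : ℕ) : ∃ d d' : ℕ, k < d ∧ ∃ (ρ : S2 →* Matrix (Fin d) (Fin d) ℝ)
    (_ : Continuous ρ) (lam : (Fin d → ℝ) →L[ℝ] ℝ) (e : Fin d → ℝ)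
    (ι : (Fin d' → ℝ) →L[ℝ] (Fin d → ℝ)) (pr : (Fin d → ℝ) →L[ℝ] (Fin d' → ℝ)),
    (∀ w, pr (ι w) = w) ∧ (∀ w, lam (ι w) = 0) ∧ pr e = 0 ∧
    (∀ v, ι (pr v) = v - lam v • e) ∧ ∀ v, (∀ h, lam (ρ h *ᵥ v) = 0) → v = 0 := by
  let b := Module.finBasis ℝ (V k)
  let ρ : S2 →* Matrix (Fin (Module.finrank ℝ (V k))) (Fin (Module.finrank ℝ (V k))) ℝ :=
    (LinearMap.toMatrixAlgEquiv b).toMulEquiv.toMonoidHom.comp (T k)
  have hρ : ∀ h, ρ h = LinearMap.toMatrix b b (T k h) := fun h => rfl
  let ev1 : V k →ₗ[ℝ] ℝ := (LinearMap.proj (1 : S2)).comp (V k).subtype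
  let lam0 : (Fin (Module.finrank ℝ (V k)) → ℝ) →ₗ[ℝ] ℝ := ev1.comp b.equivFun.symm.toLinearMap
  let f0 : V k := ⟨mono (jj k 0), Submodule.subset_span ⟨_, rfl⟩⟩
  let e := b.equivFun f0
  have he : lam0 e = 1 := by
    show (b.equivFun.symm (b.equivFun f0)).1 1 = 1
    rw [LinearEquiv.symm_apply_apply, ← u_zero]
    exact (mono_u (Nat.zero_le _) 0).trans (pow_zero _)
  let W := LinearMap.ker lam0
  let c := (Module.finBasis ℝ W).equivFun
  let ι0 := W.subtype.comp c.symm.toLinearMap
  let p0 : (Fin (Module.finrank ℝ (V k)) → ℝ) →ₗ[ℝ] W :=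
    LinearMap.codRestrict W (LinearMap.id - lam0.smulRight e) (by
      intro v
      simp [W, he])
  have hp0 : ∀ v, (p0 v).1 = v - lam0 v • e := fun v => rfl
  let pr0 := c.toLinearMap.comp p0
  refine ⟨Module.finrank ℝ (V k), Module.finrank ℝ W, finrank_V k, ρ, ?_,
    LinearMap.toContinuousLinearMap lam0, e, LinearMap.toContinuousLinearMap ι0,
    LinearMap.toContinuousLinearMap pr0, ?_, ?_, ?_, ?_, ?_⟩
  · refine continuous_matrix fun i j => ?_
    simp only [hρ, LinearMap.toMatrix_apply]
    exact (b.coord i).continuous_of_finiteDimensional.comp (T_cont (b j))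
  · intro w
    show c (p0 (c.symm w).1) = w
    have : p0 (c.symm w).1 = c.symm w := by
      apply Subtype.ext
      rw [hp0, (c.symm w).2, zero_smul, sub_zero]
    rw [this, LinearEquiv.apply_symm_apply]
  · intro w
    exact (c.symm w).2
  · show c (p0 e) = 0
    have : p0 e = 0 := by
      apply Subtype.ext
      rw [hp0, he, one_smul, sub_self]
      rfl
    rw [this, map_zero]
  · intro v
    show (c.symm (c (p0 v))).1 = _
    rw [LinearEquiv.symm_apply_apply]
    rfl
  · intro v hv
    obtain ⟨f, rfl⟩ := b.equivFun.surjective v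
    have : f = 0 := by
      apply Subtype.ext
      funext h
      have h1 := hv h
      have h2 : ρ h *ᵥ b.equivFun f = b.equivFun (T k h f) := by
        rw [hρ]
        exact LinearMap.toMatrix_mulVec_repr b b (T k h) f
      rw [h2] at h1
      change (b.equivFun.symm (b.equivFun (T k h f))).1 1 = 0 at h1
      rw [LinearEquiv.symm_apply_apply, T_apply, one_mul] at h1
      exact h1
    rw [this, map_zero]

end Pool.Agent.H.MP_e90164_al
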